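import Mathlib
import Pool.Agent.N290.RJ.Stm
import Pool.Agent.N290.RJ.Un
import Pool.Agent.N861.RJ.C9

/-!
# Riccati recursion for the corona problem on the ball of `ℂ^(d+1)`, part C9': integrals over thin
shells (project of helper290, models by helper247 and helper861, this part by helper400)
-/

set_option autoImplicit false

open Complex MeasureTheory Set Filter Topology
open scoped ENNReal Pointwise

namespace Pool.Agent.N400.RJ

open Pool.Agent.N290.RJ Pool.Agent.N861.RJ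

/-! ### Volumes of shells -/

theorem pow_sub_le (e : ℕ) {p q : ℝ} (hq : 0 ≤ q) (hpq : q ≤ p) :
    p ^ (e + 1) - q ^ (e + 1) ≤ (e + 1) * p ^ e * (p - q) := by
  induction e with
  | zero => simp
  | succ e ih =>
    have h1 : q ^ (e + 1) ≤ p ^ (e + 1) := pow_le_pow_left₀ hq hpq _
    have h2 : p ^ (e + 1 + 1) - q ^ (e + 1 + 1) =
        p * (p ^ (e + 1) - q ^ (e + 1)) + q ^ (e + 1) * (p - q) := by ring
    have h3 : 0 ≤ p := hq.trans hpq
    have h4 : 0 ≤ p - q := sub_nonneg.2 hpq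
    rw [h2]
    have h5 := mul_le_mul_of_nonneg_left ih h3
    have h6 := mul_le_mul_of_nonneg_right h1 h4
    push_cast
    calc _ ≤ p * ((e + 1) * p ^ e * (p - q)) + p ^ (e + 1) * (p - q) := add_le_add h5 h6
      _ = _ := by ring

/-- balls of `ℂ^n` of squared radius `ρ` -/
def Q (n : ℕ) (ρ : ℝ) : Set (Fin n → ℂ) := {b | ∑ i, ‖b i‖ ^ 2 < ρ}

theorem Q_open (n : ℕ) (ρ : ℝ) : IsOpen (Q n ρ) := by
  have h : Continuous (fun b : Fin n → ℂ => ∑ i, ‖b i‖ ^ 2) := by fun_prop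
  exact isOpen_lt h continuous_const

theorem Q_mono (n : ℕ) {ρ σ : ℝ} (h : ρ ≤ σ) : Q n ρ ⊆ Q n σ := fun _ hb => lt_of_lt_of_le hb h

theorem Q_empty (n : ℕ) {ρ : ℝ} (h : ρ ≤ 0) : Q n ρ = ∅ := by
  ext b
  simp only [Q, mem_ofPred_eq, mem_empty_iff_false, iff_false, not_lt]
  exact h.trans (by positivity)

theorem vol_Q1 (n : ℕ) : volume (Q n 1) ≤ ENNReal.ofReal (Real.pi ^ n) := by
  have h1 : Q n 1 ⊆ Metric.ball (0 : Fin n → ℂ) 1 := by
    intro b hb
    rw [mem_ball_zero_iff, pi_norm_lt_iff (by positivity)]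
    intro i
    have h4 : ‖b i‖ ^ 2 ≤ ∑ i, ‖b i‖ ^ 2 :=
      Finset.single_le_sum (f := fun i => ‖b i‖ ^ 2) (fun _ _ => by positivity)
        (Finset.mem_univ i)
    have h5 : ∑ i, ‖b i‖ ^ 2 < 1 := hb
    nlinarith [norm_nonneg (b i)]
  refine (measure_mono h1).trans (le_of_eq ?_)
  rw [volume_pi, Measure.pi_ball _ _ one_pos]
  simp only [Complex.volume_ball, Finset.prod_const, Finset.card_univ, Fintype.card_fin, pi_eq,
    ENNReal.ofReal_one, one_pow, one_mul]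
  rw [← ENNReal.ofReal_pow (by positivity)]

theorem vol_Q (n : ℕ) {ρ : ℝ} (h : 0 < ρ) :
    volume (Q n ρ) = ENNReal.ofReal (ρ ^ n) * volume (Q n 1) := by
  have h1 : Q n ρ = Real.sqrt ρ • Q n 1 := by
    have hs : 0 < Real.sqrt ρ := Real.sqrt_pos.2 h
    ext b
    rw [mem_smul_set_iff_inv_smul_mem₀ hs.ne']
    simp only [Q, mem_ofPred_eq, Pi.smul_apply, norm_smul, norm_inv, Real.norm_eq_abs, mul_pow,
      inv_pow, sq_abs, Real.sq_sqrt h.le]
    rw [← Finset.mul_sum, inv_mul_lt_iff₀ h, mul_one]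
  rw [h1, Measure.addHaar_smul]
  congr 2
  have h2 : Module.finrank ℝ (Fin n → ℂ) = 2 * n := by
    rw [Module.finrank_pi_fintype]
    simp [Complex.finrank_real_complex, mul_comm]
  rw [h2, pow_mul, Real.sq_sqrt h.le, abs_of_nonneg (by positivity)]

theorem vol_shellQ (e : ℕ) {R τ : ℝ} (hR : 0 < R) (hτ : 0 ≤ τ) :
    volume {b : Fin (e + 1) → ℂ | R - τ ≤ ∑ i, ‖b i‖ ^ 2 ∧ ∑ i, ‖b i‖ ^ 2 < R} ≤
      ENNReal.ofReal ((e + 1) * R ^ e * τ * Real.pi ^ (e + 1)) := by
  have hfin : volume (Q (e + 1) 1) ≠ ⊤ :=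
    ne_top_of_le_ne_top ENNReal.ofReal_ne_top (vol_Q1 _)
  set q : ℝ := max (R - τ) 0 with hq
  have hq0 : 0 ≤ q := le_max_right _ _
  have hqR : q ≤ R := max_le (by linarith) hR.le
  have hRq : R - q ≤ τ := by
    have := le_max_left (R - τ) 0
    linarith
  have h1 : {b : Fin (e + 1) → ℂ | R - τ ≤ ∑ i, ‖b i‖ ^ 2 ∧ ∑ i, ‖b i‖ ^ 2 < R} ⊆
      Q (e + 1) R \ Q (e + 1) q := by
    intro b hb
    refine ⟨hb.2, ?_⟩
    simp only [Q, mem_ofPred_eq, not_lt]
    exact max_le hb.1 (by positivity)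
  have hvq : volume (Q (e + 1) q) = ENNReal.ofReal (q ^ (e + 1)) * volume (Q (e + 1) 1) := by
    rcases hq0.eq_or_lt with h | h
    · rw [← h, Q_empty _ le_rfl]
      simp
    · exact vol_Q _ h
  have hqfin : volume (Q (e + 1) q) ≠ ⊤ := by
    rw [hvq]
    exact ENNReal.mul_ne_top ENNReal.ofReal_ne_top hfin
  refine (measure_mono h1).trans ?_
  rw [measure_sdiff (Q_mono _ hqR) (Q_open _ _).measurableSet.nullMeasurableSet hqfin, hvq,
    vol_Q _ hR, ← ENNReal.sub_mul (fun _ _ => hfin), ← ENNReal.ofReal_sub _ (by positivity)]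
  have h2 := pow_sub_le e hq0 hqR
  have h3 : R ^ (e + 1) - q ^ (e + 1) ≤ (e + 1) * R ^ e * τ :=
    h2.trans (mul_le_mul_of_nonneg_left hRq (by positivity))
  calc ENNReal.ofReal (R ^ (e + 1) - q ^ (e + 1)) * volume (Q (e + 1) 1)
      ≤ ENNReal.ofReal ((e + 1) * R ^ e * τ) * ENNReal.ofReal (Real.pi ^ (e + 1)) := by
        gcongr
        exact vol_Q1 _
    _ = _ := by rw [← ENNReal.ofReal_mul (by positivity)]

theorem exists_centre {x : ℝ} (hx : 0 ≤ x) (s : ℝ) : ∃ c : ℂ, ∀ a : ℂ, ‖a‖ < 1 →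
    ‖1 - (x : ℂ) * a‖ < s → a ∈ Metric.closedBall c (2 * s) := by
  by_cases hx2 : 1 / 2 ≤ x
  · refine ⟨(x : ℂ)⁻¹, fun a _ h5 => ?_⟩
    rw [Metric.mem_closedBall, dist_eq_norm]
    have hx0 : (x : ℂ) ≠ 0 := by
      have : x ≠ 0 := by linarith
      exact_mod_cast this
    have h3 : ‖1 - (x : ℂ) * a‖ = x * ‖a - (x : ℂ)⁻¹‖ := by
      have h4 : 1 - (x : ℂ) * a = -((x : ℂ) * (a - (x : ℂ)⁻¹)) := by
        rw [mul_sub, mul_inv_cancel₀ hx0]
        ring
      rw [h4, norm_neg, norm_mul, Complex.norm_real, Real.norm_eq_abs, abs_of_nonneg hx]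
    rw [h3] at h5
    nlinarith [norm_nonneg (a - (x : ℂ)⁻¹)]
  · push Not at hx2
    refine ⟨0, fun a h3 h5 => ?_⟩
    rw [mem_closedBall_zero_iff]
    have h4 : ‖(1 : ℂ)‖ - ‖(x : ℂ) * a‖ ≤ ‖1 - (x : ℂ) * a‖ := norm_sub_norm_le _ _
    rw [norm_one, norm_mul, Complex.norm_real, Real.norm_eq_abs, abs_of_nonneg hx] at h4
    have h6 := norm_nonneg a
    nlinarith

theorem vol_shell (e : ℕ) {x : ℝ} (hx : 0 ≤ x) (hx1 : x < 1) (s τ : ℝ) (hs : 0 < s) (hτ : 0 ≤ τ) :
    volume ({ξ : E (e + 1) | ‖1 - (x : ℂ) * ξ.1‖ < s ∧ 1 - N ξ ≤ τ} ∩ B (e + 1)) ≤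
      ENNReal.ofReal ((e + 1) * (2 * s) ^ e * τ * Real.pi ^ (e + 1) * (4 * Real.pi * s ^ 2)) := by
  obtain ⟨c, hc⟩ := exists_centre hx s
  set A : Set (E (e + 1)) := {ξ : E (e + 1) | ‖1 - (x : ℂ) * ξ.1‖ < s ∧ 1 - N ξ ≤ τ} ∩ B (e + 1)
    with hA
  have hcu : Continuous (fun ξ : E (e + 1) => ‖1 - (x : ℂ) * ξ.1‖) := by fun_prop
  have hAm : MeasurableSet A := by
    refine MeasurableSet.inter (MeasurableSet.inter ?_ ?_) B_meas
    · exact (isOpen_lt hcu continuous_const).measurableSet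
    · exact (isClosed_le (continuous_const.sub N_continuous) continuous_const).measurableSet
  set v : ℝ := (e + 1) * (2 * s) ^ e * τ * Real.pi ^ (e + 1) with hv
  have hv0 : 0 ≤ v := by positivity
  have h1 : ∀ a : ℂ, volume (Prod.mk a ⁻¹' A) ≤
      (Metric.closedBall c (2 * s)).indicator (fun _ => ENNReal.ofReal v) a := by
    intro a
    by_cases h : ‖a‖ < 1 ∧ ‖1 - (x : ℂ) * a‖ < s
    · rw [indicator_of_mem (hc a h.1 h.2)]
      set R : ℝ := 1 - ‖a‖ ^ 2 with hR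
      have ha0 := norm_nonneg a
      have hR0 : 0 < R := by nlinarith [h.1]
      have hRs : R ≤ 2 * s := by
        have h4 : ‖(1 : ℂ)‖ - ‖(x : ℂ) * a‖ ≤ ‖1 - (x : ℂ) * a‖ := norm_sub_norm_le _ _
        rw [norm_one, norm_mul, Complex.norm_real, Real.norm_eq_abs, abs_of_nonneg hx] at h4
        have h5 := h.1
        have h6 := h.2
        nlinarith
      have h2 : Prod.mk a ⁻¹' A ⊆
          {b : Fin (e + 1) → ℂ | R - τ ≤ ∑ i, ‖b i‖ ^ 2 ∧ ∑ i, ‖b i‖ ^ 2 < R} := by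
        intro b hb
        obtain ⟨⟨-, hb1⟩, hb2⟩ := hb
        have hb3 : ‖a‖ ^ 2 + ∑ i, ‖b i‖ ^ 2 < 1 := hb2
        have hb4 : 1 - (‖a‖ ^ 2 + ∑ i, ‖b i‖ ^ 2) ≤ τ := hb1
        constructor
        · rw [hR]; linarith
        · rw [hR]; linarith
      refine (measure_mono h2).trans ((vol_shellQ e hR0 hτ).trans ?_)
      apply ENNReal.ofReal_le_ofReal
      rw [hv]
      gcongr
    · have h2 : Prod.mk a ⁻¹' A = ∅ := by
        ext b
        simp only [mem_preimage, mem_empty_iff_false, iff_false]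
        intro hb
        obtain ⟨⟨hb0, -⟩, hb2⟩ := hb
        exact h ⟨norm_fst_lt hb2, hb0⟩
      rw [h2, measure_empty]
      exact zero_le
  rw [Measure.volume_eq_prod, Measure.prod_apply hAm]
  refine (lintegral_mono h1).trans (le_of_eq ?_)
  rw [lintegral_indicator Metric.isClosed_closedBall.measurableSet, setLIntegral_const,
    Complex.volume_closedBall, pi_eq, ← ENNReal.ofReal_pow (by positivity),
    ← ENNReal.ofReal_mul (by positivity), ← ENNReal.ofReal_mul (by positivity)]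
  congr 1
  ring

/-! ### The integral over a thin shell -/

/-- the bounds of the layers -/
noncomputable def bd (ε : ℝ) (K j : ℕ) : ℝ := if j < K then ε * 2 ^ j else (3 / 4) ^ (j - K)

theorem bd_nonneg {ε : ℝ} (hε : 0 < ε) (K j : ℕ) : 0 ≤ bd ε K j := by
  unfold bd
  split_ifs <;> positivity

theorem tsum_bd {ε : ℝ} (hε : 0 < ε) (K : ℕ) (hK : ε * 2 ^ K ≤ 2) (c : ℝ) (hc : 0 ≤ c) :
    ∑' j : ℕ, ENNReal.ofReal (c * bd ε K j) ≤ ENNReal.ofReal (c * 6) := by
  have hs : ∑ j ∈ Finset.range K, ENNReal.ofReal (c * bd ε K j) +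
      ∑' j : ℕ, ENNReal.ofReal (c * bd ε K (j + K)) = ∑' j : ℕ, ENNReal.ofReal (c * bd ε K j) :=
    Summable.sum_add_tsum_nat_add' (f := fun j : ℕ => ENNReal.ofReal (c * bd ε K j))
      ENNReal.summable
  rw [← hs]
  have h1 : ∑ j ∈ Finset.range K, ENNReal.ofReal (c * bd ε K j) ≤ ENNReal.ofReal (c * 2) := by
    rw [← ENNReal.ofReal_sum_of_nonneg (fun j _ => mul_nonneg hc (bd_nonneg hε K j))]
    apply ENNReal.ofReal_le_ofReal
    rw [← Finset.mul_sum]
    apply mul_le_mul_of_nonneg_left _ hc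
    have h2 : ∑ j ∈ Finset.range K, bd ε K j = ε * (2 ^ K - 1) := by
      rw [show (2 : ℝ) ^ K - 1 = (2 ^ K - 1) / (2 - 1) by norm_num, ← geom_sum_eq (by norm_num),
        Finset.mul_sum]
      refine Finset.sum_congr rfl fun j hj => ?_
      rw [bd, if_pos (Finset.mem_range.1 hj)]
    rw [h2]
    nlinarith
  have h2 : ∑' j : ℕ, ENNReal.ofReal (c * bd ε K (j + K)) ≤ ENNReal.ofReal (c * 4) := by
    have h3 : ∀ j : ℕ, bd ε K (j + K) = (3 / 4) ^ j := by
      intro j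
      rw [bd, if_neg (by omega), Nat.add_sub_cancel]
    simp only [h3]
    rw [← ENNReal.ofReal_tsum_of_nonneg (fun j => by positivity)
      ((summable_geometric_of_lt_one (by norm_num) (by norm_num)).mul_left _), tsum_mul_left,
      tsum_geometric_of_lt_one (by norm_num) (by norm_num)]
    apply ENNReal.ofReal_le_ofReal
    apply mul_le_mul_of_nonneg_left _ hc
    norm_num
  refine (add_le_add h1 h2).trans (le_of_eq ?_)
  rw [← ENNReal.ofReal_add (by positivity) (by positivity)]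
  congr 1
  ring

theorem exists_K {ε : ℝ} (hε : 0 < ε) (hε1 : ε ≤ 1) :
    ∃ K : ℕ, ε * 2 ^ K ≤ 2 ∧ 1 ≤ ε * 2 ^ K := by
  obtain ⟨K, h1, h2⟩ := exists_nat_pow_near (show 1 ≤ 1 / ε from (one_le_div hε).2 hε1)
    (by norm_num : (1 : ℝ) < 2)
  refine ⟨K + 1, ?_, ?_⟩
  · rw [le_div_iff₀ hε] at h1
    rw [pow_succ]
    linarith
  · rw [div_lt_iff₀ hε] at h2
    linarith

/-- the cut-off square root -/
noncomputable def cut (ε t : ℝ) : ℝ := if t ≤ ε then Real.sqrt (t / ε) else 0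

theorem cut_nonneg (ε t : ℝ) : 0 ≤ cut ε t := by
  unfold cut
  split_ifs
  · exact Real.sqrt_nonneg _
  · exact le_rfl

theorem cut_le_one {ε : ℝ} (hε : 0 < ε) (t : ℝ) : cut ε t ≤ 1 := by
  unfold cut
  split_ifs with h
  · rw [Real.sqrt_le_left zero_le_one, one_pow]
    exact (div_le_one hε).2 h
  · exact zero_le_one

theorem cut_meas (ε : ℝ) : Measurable (cut ε) := by
  unfold cut
  exact Measurable.ite measurableSet_Iic ((measurable_id.div_const ε).sqrt) measurable_const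

theorem int_shell (e : ℕ) {x : ℝ} (hx : 0 ≤ x) (hx1 : x < 1) {ε : ℝ} (hε : 0 < ε) (hε1 : ε ≤ 1) :
    ∫⁻ ξ in B (e + 1), ENNReal.ofReal
        (cut ε ((1 - x ^ 2) * (1 - N ξ) / ‖1 - (x : ℂ) * ξ.1‖ ^ 2) /
          ‖1 - (x : ℂ) * ξ.1‖ ^ (e + 1 + 2)) ≤
      ENNReal.ofReal ((((e + 1) * 4 ^ e * 64 * Real.pi ^ (e + 2)) +
        4 * (4 * Real.pi * (2 * Real.pi) ^ (e + 1) * 2 ^ (e + 1 + 2))) * 6) := by
  obtain ⟨K, hK2, hK1⟩ := exists_K hε hε1
  set δ : ℝ := 1 - x with hd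
  have hd0 : 0 < δ := by rw [hd]; linarith
  have hcu : Continuous (fun ξ : E (e + 1) => ‖1 - (x : ℂ) * ξ.1‖) := by fun_prop
  have hm : ∀ j : ℕ, MeasurableSet {ξ : E (e + 1) | ‖1 - (x : ℂ) * ξ.1‖ < δ * 2 ^ (j + 1)} :=
    fun j => (isOpen_lt hcu continuous_const).measurableSet
  have hm' : ∀ j : ℕ, MeasurableSet {ξ : E (e + 1) | ‖1 - (x : ℂ) * ξ.1‖ < δ * 2 ^ (j + 1) ∧
      1 - N ξ ≤ ε * δ * 4 ^ (j + 1)} := fun j => MeasurableSet.inter (hm j)
    (isClosed_le (continuous_const.sub N_continuous) continuous_const).measurableSet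
  -- the majorants of the layers
  set G : ℕ → E (e + 1) → ℝ≥0∞ := fun j => if j < K then
      ({ξ : E (e + 1) | ‖1 - (x : ℂ) * ξ.1‖ < δ * 2 ^ (j + 1) ∧
        1 - N ξ ≤ ε * δ * 4 ^ (j + 1)}).indicator
        (fun _ => ENNReal.ofReal (1 / (δ * 2 ^ j) ^ (e + 1 + 2)))
    else ({ξ : E (e + 1) | ‖1 - (x : ℂ) * ξ.1‖ < δ * 2 ^ (j + 1)}).indicator
        (fun _ => ENNReal.ofReal (4 * (3 / 4) ^ (j - K) / (δ * 2 ^ j) ^ (e + 1 + 2))) with hG
  have hGm : ∀ j, Measurable (G j) := by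
    intro j
    simp only [hG]
    split_ifs
    · exact measurable_const.indicator (hm' j)
    · exact measurable_const.indicator (hm j)
  have h2 : ∀ ξ ∈ B (e + 1), ENNReal.ofReal
      (cut ε ((1 - x ^ 2) * (1 - N ξ) / ‖1 - (x : ℂ) * ξ.1‖ ^ 2) /
          ‖1 - (x : ℂ) * ξ.1‖ ^ (e + 1 + 2)) ≤ ∑' j : ℕ, G j ξ := by
    intro ξ hξ
    set u : ℝ := ‖1 - (x : ℂ) * ξ.1‖ with hu
    have hf := norm_fst_lt hξ
    have hf0 := norm_nonneg ξ.1
    have hux := u_ge hx ξ
    rw [← hu] at hux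
    have hud : δ ≤ u := by
      rw [hd]
      nlinarith
    have hu0 : 0 < u := lt_of_lt_of_le hd0 hud
    have hs0 : 0 ≤ ∑ i, ‖ξ.2 i‖ ^ 2 := by positivity
    have hN1 : N ξ < 1 := hξ
    have hNf : 1 - N ξ ≤ 1 - ‖ξ.1‖ ^ 2 := by
      unfold N
      linarith
    have hNu : 1 - N ξ ≤ 2 * u := by nlinarith
    have hx2 : 0 < 1 - x ^ 2 := by nlinarith
    have hxd : δ ≤ 1 - x ^ 2 := by nlinarith
    have hxd2 : 1 - x ^ 2 ≤ 2 * δ := by nlinarith
    obtain ⟨j, hj1, hj2⟩ := exists_nat_pow_near (show 1 ≤ u / δ from (one_le_div hd0).2 hud)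
      (by norm_num : (1 : ℝ) < 2)
    refine le_trans ?_ (ENNReal.le_tsum j)
    have h3 : δ * 2 ^ j ≤ u := by
      rw [le_div_iff₀ hd0] at hj1
      linarith
    have h4 : u < δ * 2 ^ (j + 1) := by
      rw [div_lt_iff₀ hd0] at hj2
      linarith
    set t : ℝ := (1 - x ^ 2) * (1 - N ξ) / u ^ 2 with ht
    have ht0 : 0 ≤ t := by
      have : 0 ≤ 1 - N ξ := by linarith
      positivity
    by_cases htε : t ≤ ε
    · have hc1 := cut_le_one hε t
      have hc0 := cut_nonneg ε t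
      by_cases hjK : j < K
      · simp only [hG, if_pos hjK]
        have h5 : 1 - N ξ ≤ ε * δ * 4 ^ (j + 1) := by
          rw [ht, div_le_iff₀ (by positivity)] at htε
          have h6 : u ^ 2 ≤ (δ * 2 ^ (j + 1)) ^ 2 := by gcongr
          have h7 : (δ * 2 ^ (j + 1)) ^ 2 = δ * (δ * 4 ^ (j + 1)) := by
            rw [mul_pow, ← pow_mul, mul_comm (j + 1) 2, pow_mul]
            norm_num
            ring
          have h8 : δ * (1 - N ξ) ≤ δ * (ε * δ * 4 ^ (j + 1)) := by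
            calc δ * (1 - N ξ) ≤ (1 - x ^ 2) * (1 - N ξ) :=
                  mul_le_mul_of_nonneg_right hxd (by linarith)
              _ ≤ ε * u ^ 2 := htε
              _ ≤ ε * (δ * (δ * 4 ^ (j + 1))) := by
                rw [← h7]
                exact mul_le_mul_of_nonneg_left h6 hε.le
              _ = _ := by ring
          exact le_of_mul_le_mul_left h8 hd0
        rw [indicator_of_mem (by exact ⟨h4, h5⟩)]
        apply ENNReal.ofReal_le_ofReal
        gcongr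
      · simp only [hG, if_neg hjK]
        rw [indicator_of_mem (by exact h4)]
        apply ENNReal.ofReal_le_ofReal
        have h5 : cut ε t ≤ 4 * (3 / 4) ^ (j - K) := by
          rw [cut, if_pos htε]
          apply Real.sqrt_le_iff.2
          refine ⟨by positivity, ?_⟩
          -- `t ≤ 4 / 2 ^ j`
          have h6 : t ≤ 4 / 2 ^ j := by
            rw [ht, div_le_div_iff₀ (by positivity) (by positivity)]
            have h7 : (1 - x ^ 2) * (1 - N ξ) ≤ 2 * δ * (2 * u) :=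
              mul_le_mul hxd2 hNu (by linarith) (by positivity)
            calc (1 - x ^ 2) * (1 - N ξ) * 2 ^ j ≤ 2 * δ * (2 * u) * 2 ^ j :=
                  mul_le_mul_of_nonneg_right h7 (by positivity)
              _ = 4 * u * (δ * 2 ^ j) := by ring
              _ ≤ 4 * u * u := mul_le_mul_of_nonneg_left h3 (by positivity)
              _ = _ := by ring
          obtain ⟨i, rfl⟩ : ∃ i, j = K + i := ⟨j - K, by omega⟩
          rw [Nat.add_sub_cancel_left, mul_pow, ← pow_mul, mul_comm i 2, pow_mul]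
          have h7 : (1 / 2 : ℝ) ^ i ≤ ((3 / 4) ^ 2) ^ i := by
            apply pow_le_pow_left₀ (by norm_num)
            norm_num
          rw [div_le_iff₀ hε]
          calc t ≤ 4 / 2 ^ (K + i) := h6
            _ ≤ 4 * (1 / 2) ^ i * ε := by
              rw [div_le_iff₀ (by positivity), pow_add]
              have h8 : (1 / 2 : ℝ) ^ i * 2 ^ i = 1 := by
                rw [← mul_pow]; norm_num
              have h9 : 4 * (1 / 2 : ℝ) ^ i * ε * (2 ^ K * 2 ^ i) = 4 * (ε * 2 ^ K) := by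
                linear_combination (4 * ε * 2 ^ K) * h8
              rw [h9]
              linarith
            _ ≤ 4 ^ 2 * ((3 / 4) ^ 2) ^ i * ε := by
              apply mul_le_mul_of_nonneg_right _ hε.le
              apply mul_le_mul (by norm_num) h7 (by positivity) (by norm_num)
        gcongr
    · rw [cut, if_neg htε, zero_div, ENNReal.ofReal_zero]
      exact zero_le
  set c₁ : ℝ := (e + 1) * 4 ^ e * 64 * Real.pi ^ (e + 2) with hc₁
  set c₂ : ℝ := 4 * (4 * Real.pi * (2 * Real.pi) ^ (e + 1) * 2 ^ (e + 1 + 2)) with hc₂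
  have hc₁0 : 0 ≤ c₁ := by positivity
  have hc₂0 : 0 ≤ c₂ := by positivity
  calc ∫⁻ ξ in B (e + 1), ENNReal.ofReal
        (cut ε ((1 - x ^ 2) * (1 - N ξ) / ‖1 - (x : ℂ) * ξ.1‖ ^ 2) /
          ‖1 - (x : ℂ) * ξ.1‖ ^ (e + 1 + 2))
      ≤ ∫⁻ ξ in B (e + 1), ∑' j : ℕ, G j ξ := setLIntegral_mono' B_meas h2
    _ = ∑' j : ℕ, ∫⁻ ξ in B (e + 1), G j ξ := lintegral_tsum fun j => (hGm j).aemeasurable
    _ ≤ ∑' j : ℕ, ENNReal.ofReal ((c₁ + c₂) * bd ε K j) := by
        refine ENNReal.tsum_le_tsum fun j => ?_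
        by_cases hjK : j < K
        · simp only [hG, if_pos hjK]
          rw [lintegral_indicator (hm' j), setLIntegral_const, Measure.restrict_apply (hm' j), bd,
            if_pos hjK]
          calc ENNReal.ofReal (1 / (δ * 2 ^ j) ^ (e + 1 + 2)) *
                volume ({ξ : E (e + 1) | ‖1 - (x : ℂ) * ξ.1‖ < δ * 2 ^ (j + 1) ∧
                  1 - N ξ ≤ ε * δ * 4 ^ (j + 1)} ∩ B (e + 1))
              ≤ ENNReal.ofReal (1 / (δ * 2 ^ j) ^ (e + 1 + 2)) *
                ENNReal.ofReal ((e + 1) * (2 * (δ * 2 ^ (j + 1))) ^ e * (ε * δ * 4 ^ (j + 1)) *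
                  Real.pi ^ (e + 1) * (4 * Real.pi * (δ * 2 ^ (j + 1)) ^ 2)) := by
                gcongr
                exact vol_shell e hx hx1 _ _ (by positivity) (by positivity)
            _ = ENNReal.ofReal (c₁ * (ε * 2 ^ j)) := by
                rw [← ENNReal.ofReal_mul (by positivity)]
                congr 1
                have e4 : (4 : ℝ) ^ j = 2 ^ j * 2 ^ j := by rw [← mul_pow]; norm_num
                have e5 : (4 : ℝ) ^ (j + 1) = 4 * (2 ^ j * 2 ^ j) := by rw [pow_succ, e4]; ring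
                have e6 : (2 : ℝ) ^ (j + 1) = 2 * 2 ^ j := by rw [pow_succ]; ring
                have e7 : (2 * (δ * (2 * (2 : ℝ) ^ j))) ^ e = 4 ^ e * (δ * 2 ^ j) ^ e := by
                  rw [← mul_pow]; congr 1; ring
                rw [e5, e6, e7, hc₁]
                have hp : 0 < (2 : ℝ) ^ j := by positivity
                generalize (2 : ℝ) ^ j = p at *
                rw [div_mul_eq_mul_div, div_eq_iff (by positivity)]
                ring
            _ ≤ ENNReal.ofReal ((c₁ + c₂) * (ε * 2 ^ j)) := by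
                apply ENNReal.ofReal_le_ofReal
                have : 0 ≤ c₂ * (ε * 2 ^ j) := by positivity
                linarith
        · simp only [hG, if_neg hjK]
          rw [lintegral_indicator (hm j), setLIntegral_const, Measure.restrict_apply (hm j), bd,
            if_neg hjK]
          calc ENNReal.ofReal (4 * (3 / 4) ^ (j - K) / (δ * 2 ^ j) ^ (e + 1 + 2)) *
                volume ({ξ : E (e + 1) | ‖1 - (x : ℂ) * ξ.1‖ < δ * 2 ^ (j + 1)} ∩ B (e + 1))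
              ≤ ENNReal.ofReal (4 * (3 / 4) ^ (j - K) / (δ * 2 ^ j) ^ (e + 1 + 2)) *
                ENNReal.ofReal (4 * Real.pi * (2 * Real.pi) ^ (e + 1) *
                  (δ * 2 ^ (j + 1)) ^ (e + 1 + 2)) := by
                gcongr
                exact vol_u hx hx1 _ (by positivity)
            _ = ENNReal.ofReal (c₂ * (3 / 4) ^ (j - K)) := by
                rw [← ENNReal.ofReal_mul (by positivity)]
                congr 1
                have e1 : (δ * 2 ^ (j + 1)) ^ (e + 1 + 2) =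
                    (δ * 2 ^ j) ^ (e + 1 + 2) * 2 ^ (e + 1 + 2) := by
                  rw [← mul_pow]
                  congr 1
                  ring
                rw [e1, hc₂]
                have h5 : (δ * 2 ^ j) ^ (e + 1 + 2) ≠ 0 := by positivity
                generalize (δ * 2 ^ j) ^ (e + 1 + 2) = p at *
                field_simp
            _ ≤ ENNReal.ofReal ((c₁ + c₂) * (3 / 4) ^ (j - K)) := by
                apply ENNReal.ofReal_le_ofReal
                have : 0 ≤ c₁ * (3 / 4) ^ (j - K) := by positivity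
                linarith
    _ ≤ _ := tsum_bd hε K hK2 _ (by positivity)

theorem C9p_of (d : ℕ) (hd : 1 ≤ d) (h3 : C3 d) (h4 : C4 d) (h4b : C4b d) (h6 : C6 d) :
    C9' d := by
  obtain ⟨e, rfl⟩ : ∃ e, d = e + 1 := ⟨d - 1, by omega⟩
  set a₁ : ℝ := 2 * 2 ^ (2 * (e + 1) + 1) *
    (Real.pi ^ (e + 1 + 1) * 2 ^ (2 * (e + 1) + 2)) with ha₁
  set a₂ : ℝ := (((e + 1) * 4 ^ e * 64 * Real.pi ^ (e + 2)) +
        4 * (4 * Real.pi * (2 * Real.pi) ^ (e + 1) * 2 ^ (e + 1 + 2))) * 6 with ha₂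
  have ha₁0 : 0 < a₁ := by rw [ha₁]; positivity
  have ha₂0 : 0 < a₂ := by rw [ha₂]; positivity
  refine ⟨2 ^ (e + 1 + 2) * a₁ + 2 ^ (2 * (e + 1) + 1) * a₂, by positivity, ?_⟩
  intro ε hε hε1 z hz
  change ∫⁻ w in B (e + 1), ENNReal.ofReal (cut ε (1 - N w) * N290.RJ.ker z w) ≤ _
  -- reduction to a point `(x, 0)`
  obtain ⟨U, hU, -, hUz⟩ := h4b z
  obtain ⟨-, -, h4c⟩ := h4 U hU
  set x : ℝ := nm z with hxdef
  have hx : 0 ≤ x := nm_nonneg z
  have hx1 : x < 1 := mem_B_nm.1 hz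
  have e1 : ∫⁻ w in B (e + 1), ENNReal.ofReal (cut ε (1 - N w) * N290.RJ.ker z w) =
      ∫⁻ w in B (e + 1), ENNReal.ofReal (cut ε (1 - N w) * N290.RJ.ker ((x : ℂ), 0) w) := by
    rw [h4c (fun w => ENNReal.ofReal (cut ε (1 - N w) * N290.RJ.ker z w))]
    refine lintegral_congr fun w => ?_
    rw [hU w]
    conv_lhs => rw [← hUz]
    rw [hU.ker]
  -- change of variables
  obtain ⟨-, h3x, -⟩ := h3 x hx hx1
  have hF : Measurable (fun w : E (e + 1) =>
      ENNReal.ofReal (cut ε (1 - N w) * N290.RJ.ker ((x : ℂ), 0) w)) := by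
    have m1 : Measurable (fun w : E (e + 1) => cut ε (1 - N w)) :=
      (cut_meas ε).comp (N_continuous.measurable.const_sub 1)
    exact (m1.mul (ker_meas _)).ennreal_ofReal
  rw [e1, h3x _ hF]
  have hcn : Continuous (nm : E (e + 1) → ℝ) := N_continuous.sqrt
  calc ∫⁻ ξ in B (e + 1),
        ENNReal.ofReal (((1 - x ^ 2) / ‖1 - (x : ℂ) * ξ.1‖ ^ 2) ^ (e + 1 + 2)) *
        ENNReal.ofReal (cut ε (1 - N (Ph x ξ)) * N290.RJ.ker ((x : ℂ), 0) (Ph x ξ))
      ≤ ∫⁻ ξ in B (e + 1), (ENNReal.ofReal (2 ^ (e + 1 + 2)) *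
          ENNReal.ofReal (1 / nm ξ ^ (2 * (e + 1) + 1)) +
          ENNReal.ofReal (2 ^ (2 * (e + 1) + 1)) *
          ENNReal.ofReal
            (cut ε ((1 - x ^ 2) * (1 - N ξ) / ‖1 - (x : ℂ) * ξ.1‖ ^ 2) /
              ‖1 - (x : ℂ) * ξ.1‖ ^ (e + 1 + 2))) := by
        refine setLIntegral_mono' B_meas fun ξ hξ => ?_
        have hx2 : 0 ≤ 1 - x ^ 2 := by nlinarith
        have hn := nm_nonneg ξ
        have hS := cut_nonneg ε ((1 - x ^ 2) * (1 - N ξ) / ‖1 - (x : ℂ) * ξ.1‖ ^ 2)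
        have hS1 := cut_le_one hε ((1 - x ^ 2) * (1 - N ξ) / ‖1 - (x : ℂ) * ξ.1‖ ^ 2)
        have hp := ptwise h6 hx hx1
          (fun _ => cut ε ((1 - x ^ 2) * (1 - N ξ) / ‖1 - (x : ℂ) * ξ.1‖ ^ 2)) monotone_const
          (fun _ => hS) (fun _ => hS1) hξ
        rw [(h6 x hx hx1 ξ hξ).2.2.1]
        rw [← ENNReal.ofReal_mul (by positivity), ← ENNReal.ofReal_mul (by positivity),
          ← ENNReal.ofReal_mul (by positivity), ← ENNReal.ofReal_add (by positivity) (by positivity)]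
        exact ENNReal.ofReal_le_ofReal hp
    _ = ENNReal.ofReal (2 ^ (e + 1 + 2)) *
          (∫⁻ ξ in B (e + 1), ENNReal.ofReal (1 / nm ξ ^ (2 * (e + 1) + 1))) +
          ENNReal.ofReal (2 ^ (2 * (e + 1) + 1)) *
          ∫⁻ ξ in B (e + 1), ENNReal.ofReal
            (cut ε ((1 - x ^ 2) * (1 - N ξ) / ‖1 - (x : ℂ) * ξ.1‖ ^ 2) /
              ‖1 - (x : ℂ) * ξ.1‖ ^ (e + 1 + 2)) := by
        have m1 : Measurable (fun ξ : E (e + 1) =>
            ENNReal.ofReal (1 / nm ξ ^ (2 * (e + 1) + 1))) :=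
          ((hcn.measurable.pow_const _).const_div 1).ennreal_ofReal
        rw [lintegral_add_left (m1.const_mul _), lintegral_const_mul' _ _ ENNReal.ofReal_ne_top,
          lintegral_const_mul' _ _ ENNReal.ofReal_ne_top]
    _ ≤ ENNReal.ofReal (2 ^ (e + 1 + 2)) * ENNReal.ofReal a₁ +
          ENNReal.ofReal (2 ^ (2 * (e + 1) + 1)) * ENNReal.ofReal a₂ := by
        gcongr
        · exact int_nm
        · exact int_shell e hx hx1 hε hε1
    _ = ENNReal.ofReal (2 ^ (e + 1 + 2) * a₁ + 2 ^ (2 * (e + 1) + 1) * a₂) := by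
        rw [← ENNReal.ofReal_mul (by positivity), ← ENNReal.ofReal_mul (by positivity),
          ← ENNReal.ofReal_add (by positivity) (by positivity)]

end Pool.Agent.N400.RJ
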